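import Pool.Agent.Work.MP_7e8588_rc.FinalB

/-!
# Accessible periodic points on the boundary of a Siegel disc (MP_7e8588_an)

Let `f = P / Q` be a rational map with a linearisation domain `U = ψ (disc)` at `0`, irrational rotation number. If a periodic point `z` is
the end of the image of a radius, then it is a fixed point, the only periodic point of the frontier of `U`, and it is not in the closure of
a connected set `W` such that `W` and `f^p (W)` meet and avoid `U` and `z` (for example a periodic Fatou component other than `U`).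
For polynomials of degree at least `2` there is no such `z`.
-/

set_option autoImplicit false

open Set Filter Topology Metric Pool.RAC

noncomputable section

namespace Pool.Agent.Results.MP_7e8588_an.AccessiblePeriodicPoints

theorem result (P Q : Polynomial ℂ) (α r : ℝ) (ψ : ℂ → ℂ) (h : Lin (rat P Q) α r ψ) (hQ : Q.eval 0 ≠ 0)
    (φ : ℝ) (z : ℂ) (hL : Tendsto (fun t : ℝ => ψ (pt t φ)) (𝓝[<] r) (𝓝 z)) (n : ℕ) (hn : 0 < n) (hz : (rat P Q)^[n] z = z) :
    rat P Q z = z ∧ (∀ (m : ℕ) (z' : ℂ), 0 < m → (rat P Q)^[m] z' = z' → z' ∈ frontier (dom r ψ) → z' = z) ∧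
    (∀ (p : ℕ) (W : Set ℂ), 0 < p → IsPreconnected W → (∀ j < p, ∀ x ∈ W, Q.eval ((rat P Q)^[j] x) ≠ 0) →
      Disjoint W (dom r ψ ∪ {z}) → Disjoint ((rat P Q)^[p] '' W) (dom r ψ ∪ {z}) → ((rat P Q)^[p] '' W ∩ W).Nonempty →
      z ∉ closure W) ∧
    ¬ (Q = 1 ∧ 2 ≤ P.natDegree) := by
  obtain ⟨h1, h2, h3⟩ := t_APB P Q α r ψ h hQ φ z hL n hn hz
  refine ⟨h1, h2, h3, ?_⟩
  rintro ⟨rfl, hP⟩
  exact t_PLY P α r ψ hP h φ z hL n hn hz

end Pool.Agent.Results.MP_7e8588_an.AccessiblePeriodicPoints
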