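import Pool.Agent.Work.MP_7e8588_rc.FinalN

/-!
# Connected sets and a periodic point on the boundary of a Siegel disc (MP_7e8588_an)

Let `f = P / Q` be a rational map with a linearisation domain `U = ψ (disc)` at `0`, irrational rotation number, and let `z` be a periodic
point on the frontier of `U`. (1) A closed connected set off `U` that does not contain `z` is nowhere dense in the frontier of `U` and contains
the end of at most one radius. (2) If a family of connected sets through `0` and a point `c` off `U` leaves a gap at every prime end then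
`z` is in the closure of one of them. (3) For every `c` off `U` the impression of some prime end contains `c` or separates it from `0`.
-/

set_option autoImplicit false

open Set Filter Topology Metric Pool.RAC

noncomputable section

namespace Pool.Agent.Results.MP_7e8588_an.ContinuaOffTheDisc

theorem result (P Q : Polynomial ℂ) (α r : ℝ) (ψ : ℂ → ℂ) (h : Lin (rat P Q) α r ψ) (n : ℕ) (z : ℂ) (hn : 0 < n)
    (hz : (rat P Q)^[n] z = z) (hf : z ∈ frontier (dom r ψ)) :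
    (∀ C : Set (OnePoint ℂ), IsClosed C → IsPreconnected C → Off r ψ C → ((z : ℂ) : OnePoint ℂ) ∉ C →
      (∀ N : Set ℂ, IsOpen N → (N ∩ frontier (dom r ψ)).Nonempty →
        ∃ x ∈ N ∩ frontier (dom r ψ), ((x : ℂ) : OnePoint ℂ) ∉ C) ∧
      ∀ (φ₁ φ₂ : ℝ) (c₁ c₂ : OnePoint ℂ), c₁ ∈ C → c₂ ∈ C →
        Tendsto (fun t : ℝ => ((ψ (pt t φ₁) : ℂ) : OnePoint ℂ)) (𝓝[<] r) (𝓝 c₁) →
        Tendsto (fun t : ℝ => ((ψ (pt t φ₂) : ℂ) : OnePoint ℂ)) (𝓝[<] r) (𝓝 c₂) →
        Complex.exp (φ₁ * Complex.I) = Complex.exp (φ₂ * Complex.I)) ∧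
    (∀ c : OnePoint ℂ, Off r ψ {c} → ∀ (ι : Type) (E : ι → Set (OnePoint ℂ)), (∀ i, IsPreconnected (E i)) →
      (∀ i, ((0 : ℂ) : OnePoint ℂ) ∈ E i) → (∀ i, c ∈ E i) → (∀ θ : ℝ, ∃ i, ¬ Reaches r ψ (E i) θ) →
      ∃ i, ((z : ℂ) : OnePoint ℂ) ∈ closure (E i)) ∧
    ∀ c : OnePoint ℂ, Off r ψ {c} → ∃ θ : ℝ, ∀ E : Set (OnePoint ℂ), IsClosed E → IsPreconnected E →
      ((0 : ℂ) : OnePoint ℂ) ∈ E → c ∈ E → (E ∩ Imp r ψ θ).Nonempty :=
  ⟨fun C hC hCp hOff hzC => t_NWC P Q α r ψ h n z hn hz hf C hC hCp hOff hzC,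
    fun c hc ι E hE1 hE2 hE3 hE4 =>
      t_COV (rat P Q) α r ψ h c (fun w hw he => hc w hw he) ι E hE1 hE2 hE3 hE4 n z ((t_RTP P Q α r ψ h).1 n z hn hz hf) hf,
    fun c hc => (t_SIG (rat P Q) α r ψ h n z ((t_RTP P Q α r ψ h).1 n z hn hz hf) hf).2 c (fun w hw he => hc w hw he)⟩

end Pool.Agent.Results.MP_7e8588_an.ContinuaOffTheDisc
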