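import Pool.Agent.Work.MP_7e8588_rc.B_ACY

/-!
# A doubly accessible boundary point (MP_7e8588_an)

Let `f = P / Q` be a rational map with a linearisation domain `U = ψ (disc)` at `0`, irrational rotation number. Let `W` be a path connected
set without points of `U` and with `f^p (W) ⊆ W` (a periodic Fatou component, say). If some point `v` is the end of the image of a radius of
the disc and the end of a path in `W`, then every periodic point of the frontier of `U` is in `W`.
-/

set_option autoImplicit false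

open Set Filter Topology Metric Pool.RAC

noncomputable section

namespace Pool.Agent.Results.MP_7e8588_an.DoublyAccessiblePoint

theorem result (P Q : Polynomial ℂ) (α r : ℝ) (ψ : ℂ → ℂ) (h : Lin (rat P Q) α r ψ) (hQ : Q.eval 0 ≠ 0)
    (p : ℕ) (hp : 0 < p) (W : Set ℂ) (hW : IsPathConnected W)
    (hWQ : ∀ j < p, ∀ x ∈ W, Q.eval ((rat P Q)^[j] x) ≠ 0) (hWf : MapsTo ((rat P Q)^[p]) W W)
    (hWU : Disjoint W (dom r ψ)) (φ : ℝ) (v : ℂ)
    (hv : Tendsto (fun t : ℝ => ψ (pt t φ)) (𝓝[<] r) (𝓝 v)) (hvQ : ∀ k, Q.eval ((rat P Q)^[k] v) ≠ 0)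
    (hvW : Acc W v) (n : ℕ) (z : ℂ) (hn : 0 < n) (hz : (rat P Q)^[n] z = z) (hzf : z ∈ frontier (dom r ψ)) : z ∈ W :=
  t_ACW P Q α r ψ h hQ p hp W hW hWQ hWf hWU φ v hv hvQ hvW n z hn hz hzf

end Pool.Agent.Results.MP_7e8588_an.DoublyAccessiblePoint
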