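import Pool.Agent.Work.MP_7e8588_rc.Final

/-!
# Connected sets from the centre of a Siegel disc (MP_7e8588_an)

Let `f = P / Q` be a rational map with a linearisation domain `U = ψ (disc)` at `0`, irrational rotation number. Let `C` be a closed
connected subset of the sphere, disjoint from `U`, that contains infinity and all poles of `f` (for a polynomial `f`: `C = {∞}`). Let `E`
be a closed connected set that contains `0` and meets `C`. If there is a periodic point of `f` on the frontier of `U` whose orbit avoids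
`C` and which is not in `E`, then the preimage of `E` under `ψ` accumulates at every point of the boundary circle.
-/

set_option autoImplicit false

open Set Filter Topology Metric Pool.RAC

noncomputable section

namespace Pool.Agent.Results.MP_7e8588_an.ReachEveryPrimeEnd

theorem result (P Q : Polynomial ℂ) (α r : ℝ) (ψ : ℂ → ℂ) (hQ : Q.eval 0 ≠ 0) (h : Lin (rat P Q) α r ψ)
    (C : Set (OnePoint ℂ)) (hC1 : IsClosed C) (hC2 : IsPreconnected C) (hC3 : Off r ψ C) (hC4 : OnePoint.infty ∈ C)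
    (hC5 : ∀ p : ℂ, Q.eval p = 0 → ((p : ℂ) : OnePoint ℂ) ∈ C)
    (E : Set (OnePoint ℂ)) (hE1 : IsClosed E) (hE2 : IsPreconnected E) (hE3 : ((0 : ℂ) : OnePoint ℂ) ∈ E)
    (hE4 : (E ∩ C).Nonempty) (n : ℕ) (z : ℂ) (hn : 0 < n) (hz : (rat P Q)^[n] z = z) (hf : z ∈ frontier (dom r ψ))
    (hzE : ((z : ℂ) : OnePoint ℂ) ∉ E) (hzC : ∀ i : ℕ, (((rat P Q)^[i] z : ℂ) : OnePoint ℂ) ∉ C) (θ : ℝ) :
    Reaches r ψ E θ := by
  by_contra hcon
  rcases t_OMG P Q α r ψ hQ h C hC1 hC2 hC3 hC4 hC5 E hE1 hE2 hE3 hE4 ⟨θ, hcon⟩ n z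
    ((t_RTP P Q α r ψ h).1 n z hn hz hf) hf with h1 | ⟨i, h1⟩
  · exact hzE h1
  · exact hzC i h1

end Pool.Agent.Results.MP_7e8588_an.ReachEveryPrimeEnd
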